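import Pool.Agent.L5helper82.FP.Stmt

open MeasureTheory

namespace Pool.Agent.Results.MP_977f72_an.FreePointNotSimple

open Pool.Agent.L5helper82.FP

/-- There is a second countable locally compact group `G` whose Furstenberg boundary has a point
with trivial stabilizer although the reduced group C*-algebra of `G` is not simple. -/
theorem result : ∃ (G : Type) (_ : Group G) (_ : TopologicalSpace G) (_ : IsTopologicalGroup G)
    (_ : T2Space G) (_ : LocallyCompactSpace G) (_ : SecondCountableTopology G),
    HasFreeBoundaryPoint G ∧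
    (∀ (X : Type) [TopologicalSpace X] [MulAction G X], IsFurstenberg G X →
      ∃ z : X, ∀ g : G, g • z = z → g = 1) ∧
    (∀ [MeasurableSpace G] [BorelSpace G] (μ : Measure G) [μ.IsHaarMeasure],
      ¬ SimpleAlg (Cred μ)) := by
  refine ⟨GG, inferInstance, inferInstance, inferInstance, inferInstance, inferInstance,
    inferInstance, GG_free, ?_, fun μ _ => simple_bridge μ (GG_not_simple μ)⟩
  intro X _ _ hX
  obtain ⟨E, hE1, hE2, hB, z, hz⟩ := GG_free
  obtain ⟨π, _, hs, he⟩ := hX.2 E hB
  obtain ⟨x, rfl⟩ := hs z
  refine ⟨x, fun g hg => hz g ?_⟩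
  rw [← he, hg]

end Pool.Agent.Results.MP_977f72_an.FreePointNotSimple
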